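import Pool.Agent.H64.EV.Targets

/-!
Board evn_modules (MP_fd35e1_ag), row OSD: the super dimension.
-/

set_option autoImplicit false

open Matrix Pool.Agent.H64.CC Pool.Agent.H2.NL Pool.Agent.H64.EV

namespace Pool.Agent.H97.EV

/-- OSD: the super dimension. -/
theorem pf_OSD : T_OSD := by
  intro K _ _ V P _ _ _ _ F A hS
  set s0 := Finset.univ.filter fun y : P => F.o (Sum.inr y) = false with hs0
  set s1 := Finset.univ.filter fun y : P => ¬ F.o (Sum.inr y) = false with hs1
  have hcP : s0.card + s1.card = Fintype.card P := by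
    rw [hs0, hs1, Finset.card_filter_add_card_filter_not]
    rfl
  have hsd : F.sd = (Fintype.card V : K) + s0.card - s1.card := by
    unfold OForm.sd
    rw [Fintype.sum_sum_type]
    have e1 : ∑ x : V, sg K (F.o (Sum.inl x)) = (Fintype.card V : K) := by
      have e : ∀ x ∈ (Finset.univ : Finset V), sg K (F.o (Sum.inl x)) = 1 := fun x _ => by
        rw [hS.o_V x, sg_false]
      rw [Finset.sum_congr rfl e, Finset.sum_const, nsmul_eq_mul, Finset.card_univ, mul_one]
    have e2 : ∑ y : P, sg K (F.o (Sum.inr y)) = (s0.card : K) - s1.card := by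
      rw [← Finset.sum_filter_add_sum_filter_not Finset.univ
        (fun y : P => F.o (Sum.inr y) = false)]
      have e3 : ∑ y ∈ s0, sg K (F.o (Sum.inr y)) = (s0.card : K) := by
        have e : ∀ y ∈ s0, sg K (F.o (Sum.inr y)) = 1 := by
          intro y hy
          rw [hs0, Finset.mem_filter] at hy
          rw [hy.2, sg_false]
        rw [Finset.sum_congr rfl e, Finset.sum_const, nsmul_eq_mul, mul_one]
      have e4 : ∑ y ∈ s1, sg K (F.o (Sum.inr y)) = -(s1.card : K) := by
        have e : ∀ y ∈ s1, sg K (F.o (Sum.inr y)) = -1 := by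
          intro y hy
          rw [hs1, Finset.mem_filter, Bool.not_eq_false] at hy
          rw [hy.2, sg_true]
        rw [Finset.sum_congr rfl e, Finset.sum_const, nsmul_eq_mul, mul_neg, mul_one]
      rw [e3, e4]
      ring
    rw [e1, e2]
    ring
  have hlarge := hS.large
  have hp : 0 ≤ Fintype.card P ^ 2 := Nat.zero_le _
  refine ⟨⟨Fintype.card V + s1.card - s0.card, by omega, ?_⟩, ?_⟩
  · rw [hsd, Nat.cast_sub (by omega)]
    push_cast
    ring
  · refine ⟨Fintype.card V + s0.card - s1.card, by omega, by omega, ?_⟩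
    rw [hsd, Nat.cast_sub (by omega)]
    push_cast
    ring

end Pool.Agent.H97.EV
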