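import Pool.Agent.H64.EV.Targets

/-!
Board evn_modules (MP_fd35e1_ag), row RCG: the iterated contraction of a symmetric class, from the
calculus and the relation of the pairings.
-/

set_option autoImplicit false

open Matrix Pool.Agent.H64.CC Pool.Agent.H2.NL Pool.Agent.H64.EV

namespace Pool.Agent.H97.EV

theorem pf_RCG (hPOS : T_POS) (hCSY : T_CSY) (hREV : T_REV) : T_RCG := by
  intro K _ _ J _ _ F A hC hR l x hl hsd hx hsx
  have main : ∀ i k : ℕ, i + k = l → ∃ X Y : List J → K, X ∈ A k ∧ Symm F.o (2 * k) X ∧
      Symm F.o (2 * k) Y ∧ (∀ w, w.length = 2 * k → rv Y w = X w) ∧ itc F l x = itc F k X ∧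
      (1 ≤ i → Pr F (2 * k) X Y = 0) := by
    intro i
    induction i with
    | zero =>
      intro k hk
      rw [zero_add] at hk
      subst hk
      refine ⟨x, rv x, hx, hsx, ?_, ?_, rfl, fun h => absurd h (by norm_num)⟩
      · intro j hj w hw
        rw [(hREV K J F (2 * k) x).1 j hj w hw]
        exact hsx (2 * k - 2 - j) (by omega) w.reverse (by simpa using hw)
      · intro w _
        simp [rv]
    | succ i ih =>
      intro k hk
      obtain ⟨X, Y, hX, hsX, hsY, hrv, hit, hPr⟩ := ih (k + 1) (by omega)
      have e2 : 2 * (k + 1) = 2 * k + 2 := by ring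
      rw [e2] at hsX hsY hrv hPr
      have hs1 := (hCSY K J F (2 * k) X hsX).1
      have hs2 := (hCSY K J F (2 * k) Y hsY).2
      have hX' : con F.η 0 X ∈ A k := hC.con k 0 X hX (Nat.zero_le _)
      have hYX : ∀ w, w.length = 2 * k + 2 → Y w = rv X w := by
        intro w hw
        have := hrv w.reverse (by simpa using hw)
        simpa [rv] using this
      have hrvY : rv Y ∈ A (k + 1) := hC.congr (k + 1) X (rv Y) hX (by rw [e2]; exact hrv)
      have hstr := hR (k + 1) X Y (by omega) hX hrvY (by rw [e2]; exact hsX)
        (by rw [e2]; exact hsY)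
      have e3 : 2 * (k + 1) - 2 = 2 * k := by omega
      rw [e3, e2] at hstr
      refine ⟨con F.η 0 X, con' F Y, hX', hs1, hs2, ?_, hit, ?_⟩
      · intro w hw
        have h1 : con' F Y w.reverse = con' F (rv X) w.reverse := by
          unfold con'
          refine Finset.sum_congr rfl fun a _ => ?_
          rw [hYX _ (by simp [hw])]
        change con' F Y w.reverse = con F.η 0 X w
        rw [h1, (hREV K J F (2 * k) X).2 w.reverse (by simpa using hw)]
        have h2 : rv (con F.η (2 * k) X) w.reverse = con F.η (2 * k) X w := by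
          simp [rv]
        rw [h2]
        exact hPOS K J F (2 * k) X hsX (2 * k) le_rfl w hw
      · intro _
        have hz : (F.sd + (2 * ((k + 1 : ℕ) : K) - 2)) * Pr F (2 * k + 2) X Y = 0 := by
          rcases Nat.eq_zero_or_pos i with h0 | hpos
          · have hkl : k + 1 = l := by omega
            rw [hsd, hkl]
            ring
          · rw [hPr hpos, mul_zero]
        rw [hz] at hstr
        have hne : (2 * ((k + 1 : ℕ) : K) - 1) ≠ 0 := by
          have : (2 * ((k + 1 : ℕ) : K) - 1) = ((2 * k + 1 : ℕ) : K) := by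
            push_cast
            ring
          rw [this]
          exact Nat.cast_ne_zero.mpr (by omega)
        rcases mul_eq_zero.mp hstr.symm with h | h
        · exact absurd h hne
        · exact h
  obtain ⟨X, Y, -, -, -, hrv, hit, hPr⟩ := main l 0 (by omega)
  have h1 := hPr hl
  have h2 : Y [] = X [] := hrv [] rfl
  have h3 : Pr F (2 * 0) X Y = X [] * Y [] := rfl
  rw [h3, h2] at h1
  rw [hit]
  exact mul_self_eq_zero.mp h1

end Pool.Agent.H97.EV
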